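import Pool.Agent.Helper2_CM.Ord

/-!
# EXPP: exponents at one prime (CM project, MP_31342c_an)
-/

set_option autoImplicit false
set_option linter.unusedSectionVars false

noncomputable section

namespace Pool.Agent.Helper95_CM.H2

open HahnSeries

section
variable {I 𝒪 : Type} [Fintype I] [DecidableEq I] [CommRing 𝒪]

/-- a multiple of `p^N` plus terms of order `≥ B` -/
def Md (p N : ℕ) (B : ℤ) (y : I → LaurentSeries 𝒪) : Prop :=
  ∃ u w : I → LaurentSeries 𝒪, y = (p : LaurentSeries 𝒪) ^ N • u + w ∧ ∀ k, OrdGe B (w k)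

variable {p N : ℕ} {B : ℤ}

lemma Md.add {y y' : I → LaurentSeries 𝒪} (h : Md p N B y) (h' : Md p N B y') :
    Md p N B (y + y') := by
  obtain ⟨u, w, rfl, hw⟩ := h
  obtain ⟨u', w', rfl, hw'⟩ := h'
  refine ⟨u + u', w + w', ?_, fun k => og_add (hw k) (hw' k)⟩
  rw [smul_add]
  abel

lemma Md.smul0 {y : I → LaurentSeries 𝒪} (c : LaurentSeries 𝒪) (hc : OrdGe 0 c)
    (h : Md p N B y) : Md p N B (c • y) := by
  obtain ⟨u, w, rfl, hw⟩ := h
  refine ⟨c • u, c • w, ?_, fun k => ?_⟩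
  · rw [smul_add, smul_comm]
  · have := og_mul hc (hw k)
    rwa [zero_add] at this

lemma Md.neg {y : I → LaurentSeries 𝒪} (h : Md p N B y) : Md p N B (-y) := by
  obtain ⟨u, w, rfl, hw⟩ := h
  refine ⟨-u, -w, ?_, fun k => og_neg (hw k)⟩
  rw [smul_neg]
  abel

lemma Md.sub {y y' : I → LaurentSeries 𝒪} (h : Md p N B y) (h' : Md p N B y') :
    Md p N B (y - y') := by
  rw [sub_eq_add_neg]
  exact h.add h'.neg

lemma Md.ofOrd {y : I → LaurentSeries 𝒪} (h : ∀ k, OrdGe B (y k)) : Md p N B y :=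
  ⟨0, y, by simp, h⟩

lemma castPow_smul (x : I → LaurentSeries 𝒪) :
    (p : LaurentSeries 𝒪) ^ N • x = (p ^ N) • x := by
  rw [← Nat.cast_pow, Nat.cast_smul_eq_nsmul]

lemma Md.hom {y : I → LaurentSeries 𝒪} (W : (I → LaurentSeries 𝒪) →+ (I → LaurentSeries 𝒪))
    (hW : ∀ x : I → LaurentSeries 𝒪, (∀ k, OrdGe B (x k)) → ∀ k, OrdGe B (W x k))
    (h : Md p N B y) : Md p N B (W y) := by
  obtain ⟨u, w, rfl, hw⟩ := h
  refine ⟨W u, W w, ?_, hW w hw⟩
  rw [map_add, castPow_smul, map_nsmul, castPow_smul]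

lemma og_mulVec {a b : ℤ} {Q : Matrix I I (LaurentSeries 𝒪)} (hQ : ∀ i j, OrdGe a (Q i j))
    {x : I → LaurentSeries 𝒪} (hx : ∀ k, OrdGe b (x k)) : ∀ k, OrdGe (a + b) (Q.mulVec x k) := by
  intro k
  unfold Matrix.mulVec dotProduct
  exact og_sum _ fun j _ => og_mul (hQ k j) (hx j)

lemma og_nbv {Q : Matrix I I (LaurentSeries 𝒪)} (hQ : PolF Q)
    (x : I → LaurentSeries 𝒪) (hx : ∀ k, OrdGe B (x k)) :
    ∀ k, OrdGe B (nbv (tht 𝒪) Q x k) := by
  intro k
  have h2 := og_mulVec hQ hx k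
  rw [zero_add] at h2
  exact og_add (og_tht (hx k)) h2

lemma nbv_apply (d : LaurentSeries 𝒪 →+ LaurentSeries 𝒪) (Q : Matrix I I (LaurentSeries 𝒪))
    (x : I → LaurentSeries 𝒪) (i : I) : nbv d Q x i = d (x i) + (Q.mulVec x) i := rfl

lemma nbv_C_smul (Q : Matrix I I (LaurentSeries 𝒪)) (c : 𝒪) (x : I → LaurentSeries 𝒪) :
    nbv (tht 𝒪) Q ((HahnSeries.C c : LaurentSeries 𝒪) • x) =
      (HahnSeries.C c : LaurentSeries 𝒪) • nbv (tht 𝒪) Q x := by
  ext1 i
  rw [nbv_apply, Pi.smul_apply, Pi.smul_apply, smul_eq_mul, smul_eq_mul, tht_C_mul,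
    Matrix.mulVec_smul, Pi.smul_apply, smul_eq_mul, nbv_apply, mul_add]

lemma dsc_nsmul (d : LaurentSeries 𝒪 →+ LaurentSeries 𝒪) (Q : Matrix I I (LaurentSeries 𝒪))
    (a : LaurentSeries 𝒪) (i m : ℕ) (x : I → LaurentSeries 𝒪) :
    dsc d Q a i (m • x) = m • dsc d Q a i x := by
  induction i with
  | zero => rfl
  | succ i ih =>
    show nbv d Q (dsc d Q a i (m • x)) + (a - (i : LaurentSeries 𝒪)) • dsc d Q a i (m • x) =
      m • (nbv d Q (dsc d Q a i x) + (a - (i : LaurentSeries 𝒪)) • dsc d Q a i x)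
    rw [ih, map_nsmul, smul_add, smul_comm (a - (i : LaurentSeries 𝒪)) m]

/-- the inductive step -/
lemma step {L : ℕ} (Q : Matrix I I (LaurentSeries 𝒪)) (hQ : PolF Q)
    (T W : (I → LaurentSeries 𝒪) →+ (I → LaurentSeries 𝒪)) (a v : 𝒪)
    (h2 : ∀ x, T x = ((p : LaurentSeries 𝒪) ^ (2 * L + 1) * HahnSeries.C v) • x
        + W (nbv (tht 𝒪) Q x - (HahnSeries.C a : LaurentSeries 𝒪) • x))
    (h5 : ∀ x : I → LaurentSeries 𝒪, (∀ k, OrdGe B (x k)) → ∀ k, OrdGe B (W x k))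
    (y : I → LaurentSeries 𝒪)
    (hy : Md p N B (nbv (tht 𝒪) Q y - (HahnSeries.C a : LaurentSeries 𝒪) • y)) :
    Md p N B (T y - (HahnSeries.C ((p : 𝒪) ^ (2 * L + 1) * v) : LaurentSeries 𝒪) • y) ∧
    Md p N B (nbv (tht 𝒪) Q (T y) - (HahnSeries.C a : LaurentSeries 𝒪) • T y) := by
  have hK : (HahnSeries.C ((p : 𝒪) ^ (2 * L + 1) * v) : LaurentSeries 𝒪) =
      (p : LaurentSeries 𝒪) ^ (2 * L + 1) * HahnSeries.C v := by
    rw [map_mul, map_pow, map_natCast]
  have hr := hy.hom W h5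
  set r := W (nbv (tht 𝒪) Q y - (HahnSeries.C a : LaurentSeries 𝒪) • y) with hr'
  have hT : T y = (HahnSeries.C ((p : 𝒪) ^ (2 * L + 1) * v) : LaurentSeries 𝒪) • y + r := by
    rw [h2, hK]
  constructor
  · rw [hT, add_sub_cancel_left]
    exact hr
  · have : nbv (tht 𝒪) Q (T y) - (HahnSeries.C a : LaurentSeries 𝒪) • T y =
        (HahnSeries.C ((p : 𝒪) ^ (2 * L + 1) * v) : LaurentSeries 𝒪) •
          (nbv (tht 𝒪) Q y - (HahnSeries.C a : LaurentSeries 𝒪) • y) +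
        (nbv (tht 𝒪) Q r - (HahnSeries.C a : LaurentSeries 𝒪) • r) := by
      rw [hT, map_add, nbv_C_smul, smul_sub, smul_add,
        smul_comm (HahnSeries.C a : LaurentSeries 𝒪)]
      abel
    rw [this]
    exact (hy.smul0 _ (og_C _)).add ((hr.hom _ (og_nbv hQ)).sub (hr.smul0 _ (og_C _)))

/-- iterated shifted products -/
def fold [Fact p.Prime] (z : ℤ_[p] →+* 𝒪) (Q : Matrix I I (LaurentSeries 𝒪)) (A n : ℕ)
    (ls : List ℤ_[p]) (y : I → LaurentSeries 𝒪) : I → LaurentSeries 𝒪 :=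
  ls.foldr (fun a y => dsc (tht 𝒪) Q (HahnSeries.C ((A : 𝒪) - z a)) n y) y

lemma padic_form [Fact p.Prime] {N1 : ℕ} {v : ℤ_[p]} (hv : ¬ (p : ℤ_[p]) ^ N1 ∣ v) :
    ∃ (u : ℤ_[p]ˣ) (e : ℕ), e < N1 ∧ v = u * (p : ℤ_[p]) ^ e := by
  have hv0 : v ≠ 0 := by
    rintro rfl
    exact hv (dvd_zero _)
  refine ⟨PadicInt.unitCoeff hv0, v.valuation, ?_, PadicInt.unitCoeff_spec hv0⟩
  by_contra hlt
  rw [not_lt] at hlt
  apply hv
  calc (p : ℤ_[p]) ^ N1 ∣ (p : ℤ_[p]) ^ v.valuation := pow_dvd_pow _ hlt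
    _ ∣ v := by
      conv_rhs => rw [PadicInt.unitCoeff_spec hv0]
      exact dvd_mul_left _ _

lemma iter [Fact p.Prime] (z : ℤ_[p] →+* 𝒪) {L N1 A n : ℕ} (Q : Matrix I I (LaurentSeries 𝒪))
    (hQ : PolF Q) (a : ℤ_[p])
    (hop : ∀ b v : ℤ_[p],
      (n.factorial : ℤ_[p]) * v = ∏ j ∈ Finset.range n, (a + b - (j : ℤ_[p])) →
      ∃ T W : (I → LaurentSeries 𝒪) →+ (I → LaurentSeries 𝒪),
      (∀ x, (n.factorial : LaurentSeries 𝒪) • T x =
        (p : LaurentSeries 𝒪) ^ (2 * L + 1) • dsc (tht 𝒪) Q (HahnSeries.C (z b)) n x) ∧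
      (∀ x, T x = ((p : LaurentSeries 𝒪) ^ (2 * L + 1) * HahnSeries.C (z v)) • x
        + W (nbv (tht 𝒪) Q x - (HahnSeries.C (z a) : LaurentSeries 𝒪) • x)) ∧
      (∀ x : I → LaurentSeries 𝒪, (∀ k, OrdGe B (x k)) → ∀ k, OrdGe B (W x k)))
    (hbin : ∀ a : ℤ_[p], (∀ j ∈ Finset.range n, ¬ (p : ℤ_[p]) ^ N1 ∣ a - (j : ℤ_[p])) →
      ∃ v : ℤ_[p], (n.factorial : ℤ_[p]) * v = ∏ j ∈ Finset.range n, (a - (j : ℤ_[p])) ∧
      ¬ (p : ℤ_[p]) ^ N1 ∣ v)
    (y0 : I → LaurentSeries 𝒪)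
    (hy0 : Md p N B (nbv (tht 𝒪) Q y0 - (HahnSeries.C (z a) : LaurentSeries 𝒪) • y0))
    (ls : List ℤ_[p])
    (hls : ∀ l ∈ ls, ∀ j ∈ Finset.range n,
      ¬ (p : ℤ_[p]) ^ N1 ∣ a + ((A : ℤ_[p]) - l) - (j : ℤ_[p])) :
    ∃ (y : I → LaurentSeries 𝒪) (u : ℤ_[p]ˣ) (e : ℕ), e ≤ (2 * L + 1 + N1) * ls.length ∧
      Md p N B (y - (HahnSeries.C (z (u * (p : ℤ_[p]) ^ e)) : LaurentSeries 𝒪) • y0) ∧
      Md p N B (nbv (tht 𝒪) Q y - (HahnSeries.C (z a) : LaurentSeries 𝒪) • y) ∧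
      (n.factorial ^ ls.length) • y = (p ^ ((2 * L + 1) * ls.length)) • fold z Q A n ls y0 := by
  induction ls with
  | nil =>
    refine ⟨y0, 1, 0, by simp, ?_, hy0, by simp [fold]⟩
    simp only [Units.val_one, pow_zero, mul_one, map_one, one_smul, sub_self]
    exact Md.ofOrd fun k => og_zero _
  | cons l ls ih =>
    obtain ⟨y, u, e, he, h1, h2, h3⟩ := ih fun l' hl' => hls l' (List.mem_cons_of_mem _ hl')
    obtain ⟨v, hv1, hv2⟩ := hbin _ (hls l (List.mem_cons_self ..))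
    obtain ⟨u', e', he', rfl⟩ := padic_form hv2
    obtain ⟨T, W, hT1, hT2, hW⟩ := hop _ _ hv1
    obtain ⟨h4, h5⟩ := step Q hQ T W (z a) (z (u' * (p : ℤ_[p]) ^ e')) hT2 hW y h2
    refine ⟨T y, u' * u, (2 * L + 1) + e' + e, ?_, ?_, h5, ?_⟩
    · rw [List.length_cons]
      have : (2 * L + 1 + N1) * (ls.length + 1) = (2 * L + 1 + N1) * ls.length +
        (2 * L + 1 + N1) := by ring
      rw [this]
      omega
    · have h6 := h1.smul0 (HahnSeries.C ((p : 𝒪) ^ (2 * L + 1) * z (u' * (p : ℤ_[p]) ^ e')))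
        (og_C _)
      have h7 := h4.add h6
      have h8 : (HahnSeries.C (z (((u' * u : ℤ_[p]ˣ) : ℤ_[p]) *
          (p : ℤ_[p]) ^ (2 * L + 1 + e' + e))) : LaurentSeries 𝒪) =
          HahnSeries.C ((p : 𝒪) ^ (2 * L + 1) * z (u' * (p : ℤ_[p]) ^ e')) *
            HahnSeries.C (z (u * (p : ℤ_[p]) ^ e)) := by
        rw [← map_mul]
        congr 1
        have : (p : 𝒪) = z (p : ℤ_[p]) := (map_natCast z p).symm
        rw [this, ← map_pow, ← map_mul, ← map_mul]
        congr 1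
        rw [Units.val_mul]
        ring
      rw [h8, mul_smul]
      rw [smul_sub] at h7
      convert h7 using 1
      abel
    · have h6 := hT1 y
      rw [Nat.cast_smul_eq_nsmul, castPow_smul, map_sub, map_natCast] at h6
      have h7 : (n.factorial ^ (l :: ls).length) • T y =
          (n.factorial ^ ls.length) • (n.factorial • T y) := by
        rw [List.length_cons, pow_succ, mul_smul]
      rw [h7, h6, smul_comm, ← dsc_nsmul, h3, dsc_nsmul, List.length_cons, ← mul_smul, ← _root_.pow_add]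
      congr 2
      ring

/-- image of a nearly flat vector under the Frobenius -/
lemma frob_vec [Fact p.Prime] (z : ℤ_[p] →+* 𝒪) (φ : 𝒪 →+* 𝒪) (hO : OBase p z φ)
    {Q F : Matrix I I (LaurentSeries 𝒪)} {a' : ℕ} {E : ℤ} (a : ℤ_[p])
    (hF : Cong ((p : LaurentSeries 𝒪) ^ N) (F.map (tht 𝒪) + Q * F)
      ((p : LaurentSeries 𝒪) • (F * Q.map (phT p φ))))
    (hpF : PolLe a' F) (x : I → LaurentSeries 𝒪)
    (hx : ∀ i, OrdGe E
      ((nbv (tht 𝒪) Q x - (HahnSeries.C (z a) : LaurentSeries 𝒪) • x) i))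
    (hB : B ≤ (p : ℤ) * E - a') :
    Md p N B (nbv (tht 𝒪) Q (F.mulVec fun i => phT p φ (x i)) -
      (HahnSeries.C (z ((p : ℤ_[p]) * a)) : LaurentSeries 𝒪) •
        (F.mulVec fun i => phT p φ (x i))) := by
  have hp : 0 < p := (Fact.out : p.Prime).pos
  choose G hG using hF
  -- the remainder
  set r : I → LaurentSeries 𝒪 :=
    nbv (tht 𝒪) Q x - (HahnSeries.C (z a) : LaurentSeries 𝒪) • x with hr
  refine ⟨Matrix.mulVec (Matrix.of G) (fun i => phT p φ (x i)),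
    (p : LaurentSeries 𝒪) • F.mulVec (fun i => phT p φ (r i)), ?_, ?_⟩
  · ext1 i
    have hx' : ∀ k, tht 𝒪 (x k) = r k + HahnSeries.C (z a) * x k - ∑ j, Q k j * x j := by
      intro k
      rw [hr]
      simp only [Pi.sub_apply, Pi.smul_apply, smul_eq_mul, nbv_apply, Matrix.mulVec, dotProduct]
      ring
    have hG' : ∀ j, tht 𝒪 (F i j) + ∑ k, Q i k * F k j =
        (p : LaurentSeries 𝒪) * ∑ k, F i k * phT p φ (Q k j)
          + (p : LaurentSeries 𝒪) ^ N * G i j := by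
      intro j
      have := hG i j
      simp only [Matrix.add_apply, Matrix.map_apply, Matrix.mul_apply, Matrix.smul_apply,
        smul_eq_mul] at this
      rw [← this]
      ring
    have hpc : ∀ k, phT p φ (HahnSeries.C (z a) * x k) = HahnSeries.C (z a) * phT p φ (x k) := by
      intro k
      rw [map_mul, phT_C hp, hO.lin]
    simp only [Pi.sub_apply, Pi.smul_apply, Pi.add_apply, smul_eq_mul, nbv_apply, Matrix.mulVec,
      dotProduct, Matrix.of_apply, map_sum]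
    have e1 : ∀ j, tht 𝒪 (F i j * phT p φ (x j)) =
        tht 𝒪 (F i j) * phT p φ (x j) + (p : LaurentSeries 𝒪) *
          (F i j * phT p φ (r j) + HahnSeries.C (z a) * (F i j * phT p φ (x j))
            - F i j * ∑ k, phT p φ (Q j k) * phT p φ (x k)) := by
      intro j
      rw [tht_isDer, phT_tht hp, hx' j, map_sub, map_add, hpc, map_sum]
      simp only [map_mul]
      ring
    have e2 : ∑ k, Q i k * ∑ j, F k j * phT p φ (x j) =
        ∑ j, (∑ k, Q i k * F k j) * phT p φ (x j) := by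
      simp only [Finset.mul_sum, Finset.sum_mul]
      rw [Finset.sum_comm]
      simp only [mul_assoc]
    have e3 : ∑ j, F i j * ∑ k, phT p φ (Q j k) * phT p φ (x k) =
        ∑ j, (∑ k, F i k * phT p φ (Q k j)) * phT p φ (x j) := by
      simp only [Finset.mul_sum, Finset.sum_mul]
      rw [Finset.sum_comm]
      simp only [mul_assoc]
    have e4 : ∑ j, tht 𝒪 (F i j) * phT p φ (x j) + ∑ j, (∑ k, Q i k * F k j) * phT p φ (x j) =
        (p : LaurentSeries 𝒪) * ∑ j, (∑ k, F i k * phT p φ (Q k j)) * phT p φ (x j) +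
        (p : LaurentSeries 𝒪) ^ N * ∑ j, G i j * phT p φ (x j) := by
      rw [← Finset.sum_add_distrib, Finset.mul_sum, Finset.mul_sum, ← Finset.sum_add_distrib]
      apply Finset.sum_congr rfl
      intro j _
      rw [← add_mul, hG' j]
      ring
    have e5 : (HahnSeries.C (z ((p : ℤ_[p]) * a)) : LaurentSeries 𝒪) =
        (p : LaurentSeries 𝒪) * HahnSeries.C (z a) := by
      rw [map_mul, map_mul, map_natCast, map_natCast]
    rw [Finset.sum_congr rfl fun j _ => e1 j, Finset.sum_add_distrib, ← Finset.mul_sum,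
      Finset.sum_sub_distrib, Finset.sum_add_distrib, ← Finset.mul_sum, e2, e3, e5]
    linear_combination e4
  · intro k
    have h1 := og_mulVec (a := -(a' : ℤ)) (b := (p : ℤ) * E) hpF
      (x := fun i => phT p φ (r i)) (fun j => og_phT hp φ (hx j)) k
    rw [Pi.smul_apply, smul_eq_mul]
    exact og_natCast_mul p (og_mono (by linarith) h1)

end

theorem expp (hW : WopStmt) (hL : LatshStmt) (hV : VbinStmt) : ExppStmt := by
  intro p _ 𝒪 _ z φ I _ _ L N N1 C E ρ Q P F al a x hO hFA hQ hprod hFS hpP hpF hN1 hC hE hN hx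
    hxE hxp hφ
  by_contra hcon
  push Not at hcon
  have hp : 0 < p := (Fact.out : p.Prime).pos
  -- the numbers
  set A : ℕ := C * p with hA
  set B : ℕ := (C + 1) * p with hB
  have hn : A + B < p ^ 2 := by
    have : A + B = (2 * C + 1) * p := by rw [hA, hB]; ring
    rw [this, pow_two]
    exact Nat.mul_lt_mul_of_pos_right (by omega) hp
  set ls : List ℤ_[p] := List.ofFn al with hls
  have hlen : ls.length = ρ := by rw [hls, List.length_ofFn]
  -- the vector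
  set y0 : I → LaurentSeries 𝒪 := F.mulVec fun i => phT p φ (x i) with hy0
  have hBE : ((B : ℕ) : ℤ) ≤ (p : ℤ) * E - (C * p : ℕ) := by
    have h1 : (C + 1) * p + C * p ≤ p * E := by
      calc (C + 1) * p + C * p = p * (2 * C + 1) := by ring
        _ ≤ p * E := Nat.mul_le_mul_left p hE
    have h2 : (((C + 1) * p + C * p : ℕ) : ℤ) ≤ ((p * E : ℕ) : ℤ) := by exact_mod_cast h1
    rw [hB]
    push_cast at h2 ⊢
    linarith
  have hy0d := frob_vec (N := N) (B := (B : ℤ)) z φ hO a hFS.cF hpF x hxE hBE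
  have hy0o : ∀ k, OrdGe (-(A : ℤ)) (y0 k) := by
    intro k
    have := og_mulVec (a := -((C * p : ℕ) : ℤ)) (b := (p : ℤ) * 0) hpF
      (x := fun i => phT p φ (x i)) (fun j => og_phT hp φ (hx j)) k
    rw [mul_zero, add_zero] at this
    exact this
  -- iterate
  obtain ⟨y, u, e, he, h1, h2, h3⟩ := iter (N := N) (B := (B : ℤ)) (L := L) (N1 := N1) (A := A)
    (n := A + B) z Q hQ ((p : ℤ_[p]) * a)
    (by
      intro b v hbv
      obtain ⟨T, W, w1, w2, w3, w4, w5⟩ :=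
        hW p 𝒪 z φ I L Q hO hFA (A + B) b ((p : ℤ_[p]) * a) v hn hbv
      exact ⟨T, W, w1, w2, fun x hx k => (w5 hQ _ x hx).2 k⟩)
    (fun a' ha' => hV p (A + B) N1 a' hN1 ha') y0 hy0d ls
    (by
      intro l hl j hj hdvd
      rw [hls, List.mem_ofFn] at hl
      obtain ⟨i, rfl⟩ := hl
      rw [Finset.mem_range] at hj
      refine hcon i ((j : ℤ) - A) ?_ ?_
      · rw [abs_le]
        have hj' : (j : ℤ) < A + B := by exact_mod_cast hj
        have hAB : (A : ℤ) ≤ B := by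
          rw [hA, hB]
          push_cast
          nlinarith
        have hBB : ((C : ℤ) + 1) * p = B := by rw [hB]; push_cast; ring
        rw [hBB]
        constructor <;> omega
      · have : (p : ℤ_[p]) * a - al i - (((j : ℤ) - A : ℤ) : ℤ_[p]) =
            (p : ℤ_[p]) * a + ((A : ℤ_[p]) - al i) - (j : ℤ_[p]) := by
          push_cast
          ring
        rw [this]
        exact hdvd)
  rw [hlen] at he h3
  -- the lattice
  have hfold : ∀ k, OrdGe (B : ℤ) (fold z Q A (A + B) ls y0 k) := by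
    have h4 := hL 𝒪 I Q (ls.map z) hQ (by
      rw [hls, List.map_ofFn, List.map_ofFn]
      exact hprod) A B y0 hy0o
    rw [List.foldr_map] at h4
    exact h4
  have hyB : ∀ k, OrdGe (B : ℤ) (y k) := by
    intro k i hi
    have h4 := congrFun h3 k
    rw [Pi.smul_apply, Pi.smul_apply, nsmul_eq_mul, nsmul_eq_mul] at h4
    have h5 := congrArg (fun y => HahnSeries.coeff y i) h4
    rw [og_natCast_mul _ (hfold k) i hi, natCast_eq_C, coeff_C_mul'] at h5
    exact tf_nat z hO.tf (pow_ne_zero _ (Nat.factorial_ne_zero _)) _ h5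
  -- multiple of y0
  have hK : Md p N (B : ℤ) ((HahnSeries.C (z (u * (p : ℤ_[p]) ^ e)) : LaurentSeries 𝒪) • y0) := by
    have := (Md.ofOrd (p := p) (N := N) hyB).sub h1
    rwa [sub_sub_cancel] at this
  obtain ⟨v, w, hvw, hw⟩ := hK
  obtain ⟨i, hi⟩ := hxp
  apply hi
  apply hφ
  -- apply P
  have hPF := hFS.PF
  choose G hG using hPF
  have e1 : (HahnSeries.C (z (u * (p : ℤ_[p]) ^ e)) : LaurentSeries 𝒪) *
      ((p : LaurentSeries 𝒪) ^ L * phT p φ (x i) +
        (p : LaurentSeries 𝒪) ^ N * (∑ j, G i j * phT p φ (x j))) =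
      (p : LaurentSeries 𝒪) ^ N * (P.mulVec v i) + P.mulVec w i := by
    have h4 : P.mulVec y0 i = (p : LaurentSeries 𝒪) ^ L * phT p φ (x i) +
        (p : LaurentSeries 𝒪) ^ N * (∑ j, G i j * phT p φ (x j)) := by
      rw [hy0, Matrix.mulVec_mulVec]
      simp only [Matrix.mulVec, dotProduct]
      have h6 : ∀ j, (P * F) i j * phT p φ (x j) =
          ((p : LaurentSeries 𝒪) ^ L • (1 : Matrix I I (LaurentSeries 𝒪))) i j * phT p φ (x j) +
          (p : LaurentSeries 𝒪) ^ N * (G i j * phT p φ (x j)) := by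
        intro j
        have := hG i j
        rw [sub_eq_iff_eq_add] at this
        rw [this]
        ring
      rw [Finset.sum_congr rfl fun j _ => h6 j, Finset.sum_add_distrib, ← Finset.mul_sum]
      congr 1
      rw [Finset.sum_eq_single i]
      · simp
      · intro j _ hj
        simp [Matrix.one_apply_ne (Ne.symm hj)]
      · intro h
        exact absurd (Finset.mem_univ _) h
    rw [← h4]
    have h5 := congrArg (fun y => P.mulVec y i) hvw
    rw [Matrix.mulVec_smul, Matrix.mulVec_add, Matrix.mulVec_smul] at h5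
    exact h5
  have e2 := congrArg (fun y => HahnSeries.coeff y 0) e1
  have hw0 : (P.mulVec w i).coeff 0 = 0 := by
    have := og_mulVec (a := -((C * p : ℕ) : ℤ)) (b := (B : ℤ)) hpP hw i
    apply this
    rw [hB]
    push_cast
    have hp' : (0 : ℤ) < p := by exact_mod_cast hp
    linarith
  have hph0 : (phT p φ (x i)).coeff 0 = φ ((x i).coeff 0) := by
    have := phT_coeff hp φ (x i) 0
    rwa [mul_zero] at this
  have cpow : ∀ (m : ℕ) (s : LaurentSeries 𝒪) (g : ℤ),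
      ((p : LaurentSeries 𝒪) ^ m * s).coeff g = (p : 𝒪) ^ m * s.coeff g := by
    intro m s g
    rw [natCast_eq_C, ← map_pow, coeff_C_mul']
  rw [HahnSeries.coeff_add, hw0, add_zero, coeff_C_mul', HahnSeries.coeff_add, cpow, cpow, cpow,
    hph0, map_mul, map_pow, map_natCast] at e2
  -- divisibility
  have hlt : e + L + 1 ≤ N := by
    have : (2 * L + 1 + N1) * ρ = (2 * L + 1) * ρ + N1 * ρ := by ring
    omega
  obtain ⟨N', hN'⟩ := Nat.exists_eq_add_of_le hlt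
  have hu : IsUnit (z (u : ℤ_[p])) := u.isUnit.map z
  obtain ⟨ui, hui⟩ := hu.exists_left_inv
  have e3 : (p : 𝒪) ^ (e + L) * (φ ((x i).coeff 0) -
      (p : 𝒪) ^ (1 + N') * (ui * (P.mulVec v i).coeff 0 -
        (p : 𝒪) ^ e * (∑ j, G i j * phT p φ (x j)).coeff 0)) = 0 := by
    have hpN : (p : 𝒪) ^ N = (p : 𝒪) ^ e * (p : 𝒪) ^ L * (p : 𝒪) ^ (1 + N') := by
      rw [hN']
      ring
    rw [hpN] at e2
    linear_combination ui * e2 - ((p : 𝒪) ^ e * (p : 𝒪) ^ L * φ ((x i).coeff 0) +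
      (p : 𝒪) ^ e * (p : 𝒪) ^ e * (p : 𝒪) ^ L * (p : 𝒪) ^ (1 + N') *
        (∑ j, G i j * phT p φ (x j)).coeff 0) * hui
  have e4 := tf_pow hO.tf _ _ e3
  rw [sub_eq_zero] at e4
  rw [e4]
  refine ⟨(p : 𝒪) ^ N' * (ui * (P.mulVec v i).coeff 0 -
        (p : 𝒪) ^ e * (∑ j, G i j * phT p φ (x j)).coeff 0), ?_⟩
  ring

end Pool.Agent.Helper95_CM.H2
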