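import Pool.Agent.Helper95_CM.StF

/-!
# Orders of Laurent series: basic lemmas for the CM project (MP_31342c_an)
-/

set_option autoImplicit false
set_option linter.unusedSectionVars false

noncomputable section

namespace Pool.Agent.Helper95_CM.H2

open HahnSeries

section ord
variable {R : Type} [CommRing R]

lemma og_zero (m : ℤ) : OrdGe m (0 : LaurentSeries R) := fun i _ => by simp

lemma og_add {m : ℤ} {x y : LaurentSeries R} (hx : OrdGe m x) (hy : OrdGe m y) :
    OrdGe m (x + y) := fun i hi => by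
  rw [HahnSeries.coeff_add, hx i hi, hy i hi, add_zero]

lemma og_neg {m : ℤ} {x : LaurentSeries R} (hx : OrdGe m x) : OrdGe m (-x) := fun i hi => by
  rw [HahnSeries.coeff_neg, hx i hi, neg_zero]

lemma og_sub {m : ℤ} {x y : LaurentSeries R} (hx : OrdGe m x) (hy : OrdGe m y) :
    OrdGe m (x - y) := by
  rw [sub_eq_add_neg]
  exact og_add hx (og_neg hy)

lemma og_mono {m m' : ℤ} {x : LaurentSeries R} (h : m' ≤ m) (hx : OrdGe m x) : OrdGe m' x :=
  fun i hi => hx i (lt_of_lt_of_le hi h)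

lemma og_sum {m : ℤ} {ι : Type} (s : Finset ι) {x : ι → LaurentSeries R}
    (hx : ∀ k ∈ s, OrdGe m (x k)) : OrdGe m (∑ k ∈ s, x k) := by
  classical
  induction s using Finset.induction_on with
  | empty => simpa using og_zero m
  | insert a s ha ih =>
    rw [Finset.sum_insert ha]
    exact og_add (hx a (Finset.mem_insert_self _ _))
      (ih fun k hk => hx k (Finset.mem_insert_of_mem hk))

lemma og_mul {m m' : ℤ} {x y : LaurentSeries R} (hx : OrdGe m x) (hy : OrdGe m' y) :
    OrdGe (m + m') (x * y) := by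
  intro i hi
  rw [HahnSeries.coeff_mul]
  apply Finset.sum_eq_zero
  rintro ⟨a, b⟩ hab
  rw [Finset.mem_antidiagonal] at hab
  obtain ⟨h1, h2, h3⟩ := hab
  simp only at h1 h2 h3
  by_cases ha : a < m
  · exact absurd (hx a ha) h1
  · have hb : b < m' := by omega
    exact absurd (hy b hb) h2

lemma og_C (a : R) : OrdGe 0 (HahnSeries.C a : LaurentSeries R) := by
  intro i hi
  rw [HahnSeries.C_apply, HahnSeries.coeff_single_of_ne hi.ne]

lemma og_C_mul {m : ℤ} {x : LaurentSeries R} (a : R) (hx : OrdGe m x) :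
    OrdGe m ((HahnSeries.C a : LaurentSeries R) * x) := by
  have := og_mul (og_C a) hx
  rwa [zero_add] at this

lemma natCast_eq_C (k : ℕ) : (k : LaurentSeries R) = HahnSeries.C (k : R) :=
  (map_natCast (HahnSeries.C : R →+* LaurentSeries R) k).symm

lemma og_natCast_mul {m : ℤ} {x : LaurentSeries R} (k : ℕ) (hx : OrdGe m x) :
    OrdGe m ((k : LaurentSeries R) * x) := by
  rw [natCast_eq_C]
  exact og_C_mul _ hx

lemma og_natPow_mul {m : ℤ} {x : LaurentSeries R} (p k : ℕ) (hx : OrdGe m x) :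
    OrdGe m ((p : LaurentSeries R) ^ k * x) := by
  rw [← Nat.cast_pow]
  exact og_natCast_mul _ hx

lemma og_tht {m : ℤ} {x : LaurentSeries R} (hx : OrdGe m x) : OrdGe m (tht R x) := by
  intro i hi
  rw [tht_coeff, hx i hi, mul_zero]

lemma coeff_C_mul' (a : R) (x : LaurentSeries R) (i : ℤ) :
    ((HahnSeries.C a : LaurentSeries R) * x).coeff i = a * x.coeff i := by
  rw [HahnSeries.C_mul_eq_smul, HahnSeries.coeff_smul, smul_eq_mul]

lemma tht_isDer : IsDer (tht R) := by
  intro x y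
  ext g
  rw [tht_coeff, HahnSeries.coeff_add, HahnSeries.coeff_mul,
    HahnSeries.coeff_mul_left' (s := x.support) x.isPWO_support (by
      intro a ha
      simp only [HahnSeries.mem_support, tht_coeff] at ha ⊢
      intro h0
      exact ha (by rw [h0, mul_zero])),
    HahnSeries.coeff_mul_right' (s := y.support) y.isPWO_support (by
      intro a ha
      simp only [HahnSeries.mem_support, tht_coeff] at ha ⊢
      intro h0
      exact ha (by rw [h0, mul_zero])), ← Finset.sum_add_distrib, Finset.mul_sum]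
  apply Finset.sum_congr rfl
  rintro ⟨a, b⟩ hab
  rw [Finset.mem_antidiagonal] at hab
  obtain ⟨_, _, h3⟩ := hab
  simp only at h3
  subst h3
  simp only [tht_coeff]
  push_cast
  ring

lemma tht_C (a : R) : tht R (HahnSeries.C a : LaurentSeries R) = 0 := by
  ext i
  rw [tht_coeff, HahnSeries.coeff_zero, HahnSeries.C_apply]
  by_cases h : i = 0
  · subst h; simp
  · rw [HahnSeries.coeff_single_of_ne h, mul_zero]

lemma tht_C_mul (a : R) (x : LaurentSeries R) :
    tht R ((HahnSeries.C a : LaurentSeries R) * x) = HahnSeries.C a * tht R x := by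
  rw [tht_isDer, tht_C, zero_mul, zero_add]

lemma tht_natCast_mul (k : ℕ) (x : LaurentSeries R) :
    tht R ((k : LaurentSeries R) * x) = (k : LaurentSeries R) * tht R x := by
  rw [natCast_eq_C, tht_C_mul]

lemma phT_C {p : ℕ} (hp : 0 < p) (f : R →+* R) (a : R) :
    phT p f (HahnSeries.C a : LaurentSeries R) = HahnSeries.C (f a) := by
  ext i
  by_cases hd : (p : ℤ) ∣ i
  · obtain ⟨j, rfl⟩ := hd
    rw [phT_coeff hp, HahnSeries.C_apply, HahnSeries.C_apply]
    by_cases hj : j = 0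
    · subst hj; simp
    · rw [HahnSeries.coeff_single_of_ne hj, HahnSeries.coeff_single_of_ne, map_zero]
      simp [hp.ne', hj]
  · rw [phT_coeff_ne hp f _ _ hd, HahnSeries.C_apply, HahnSeries.coeff_single_of_ne]
    rintro rfl
    exact hd (dvd_zero _)

lemma phT_tht {p : ℕ} (hp : 0 < p) (f : R →+* R) (x : LaurentSeries R) :
    tht R (phT p f x) = (p : LaurentSeries R) * phT p f (tht R x) := by
  ext i
  rw [tht_coeff, natCast_eq_C, coeff_C_mul']
  by_cases hd : (p : ℤ) ∣ i
  · obtain ⟨j, rfl⟩ := hd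
    rw [phT_coeff hp, phT_coeff hp, tht_coeff, map_mul, map_intCast]
    push_cast
    ring
  · rw [phT_coeff_ne hp f _ _ hd, phT_coeff_ne hp f _ _ hd, mul_zero, mul_zero]

lemma og_phT {p : ℕ} (hp : 0 < p) (f : R →+* R) {m : ℤ} {x : LaurentSeries R}
    (hx : OrdGe m x) : OrdGe ((p : ℤ) * m) (phT p f x) := by
  intro i hi
  by_cases hd : (p : ℤ) ∣ i
  · obtain ⟨j, rfl⟩ := hd
    rw [phT_coeff hp, hx j, map_zero]
    have hp' : (0 : ℤ) < p := by exact_mod_cast hp
    exact lt_of_mul_lt_mul_left hi hp'.le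
  · exact phT_coeff_ne hp f _ _ hd

end ord

section tf
variable {𝒪 : Type} [CommRing 𝒪]

lemma natCast_mul_cancel {k : ℕ}
    (h : ∀ x : 𝒪, (k : 𝒪) * x = 0 → x = 0) (x : LaurentSeries 𝒪)
    (hx : (k : LaurentSeries 𝒪) * x = 0) : x = 0 := by
  ext i
  rw [HahnSeries.coeff_zero]
  apply h
  have := congrArg (fun y => HahnSeries.coeff y i) hx
  simp only [natCast_eq_C, coeff_C_mul', HahnSeries.coeff_zero] at this
  exact this

lemma tf_pow {p : ℕ} (h : ∀ x : 𝒪, (p : 𝒪) * x = 0 → x = 0) (k : ℕ)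
    (x : 𝒪) (hx : (p : 𝒪) ^ k * x = 0) : x = 0 := by
  induction k with
  | zero => simpa using hx
  | succ k ih =>
    apply ih
    apply h
    rw [← hx]
    ring

/-- every nonzero natural number is a nonzero divisor -/
lemma tf_nat {p : ℕ} [Fact p.Prime] (z : ℤ_[p] →+* 𝒪)
    (h : ∀ x : 𝒪, (p : 𝒪) * x = 0 → x = 0) {k : ℕ} (hk : k ≠ 0) (x : 𝒪)
    (hx : (k : 𝒪) * x = 0) : x = 0 := by
  have hk' : (k : ℤ_[p]) ≠ 0 := by exact_mod_cast hk
  obtain ⟨u, n, hu⟩ : ∃ (u : ℤ_[p]ˣ) (n : ℕ), (k : ℤ_[p]) = u * (p : ℤ_[p]) ^ n :=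
    ⟨PadicInt.unitCoeff hk', _, PadicInt.unitCoeff_spec hk'⟩
  apply tf_pow h n
  have h2 : (k : 𝒪) = z u * (p : 𝒪) ^ n := by
    have := congrArg z hu
    rw [map_natCast, map_mul, map_pow, map_natCast] at this
    exact this
  rw [h2, mul_assoc] at hx
  have h3 : IsUnit (z (u : ℤ_[p])) := u.isUnit.map z
  exact h3.mul_right_eq_zero.mp hx

end tf

end Pool.Agent.Helper95_CM.H2
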